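import Mathlib

set_option autoImplicit false

namespace Pool.Agent.Results.MP_177738_an.BoundedDisconnected

open scoped RealInnerProductSpace

/-- `ℝⁿ` with its Euclidean norm. -/
abbrev E (n : ℕ) := EuclideanSpace ℝ (Fin n)

/-- The Pareto solution set: the `x ∈ K` such that no `y ∈ K` has all `⟪F_l(x), x - y⟫ ≥ 0` with
one of them nonzero. -/
def paretoSol {n m : ℕ} (F : Fin m → E n → E n) (K : Set (E n)) : Set (E n) :=
  {x | x ∈ K ∧ ∀ y ∈ K, ¬ ((∀ l, 0 ≤ ⟪F l x, x - y⟫) ∧ ∃ l, ⟪F l x, x - y⟫ ≠ 0)}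

/-- Every `F_l` is monotone on `K`. -/
def IsMonotone {n m : ℕ} (F : Fin m → E n → E n) (K : Set (E n)) : Prop :=
  ∀ l, ∀ x ∈ K, ∀ y ∈ K, 0 ≤ ⟪F l y - F l x, y - x⟫

/-- The cylinder `{x² + y² ≤ 1, 0 ≤ t ≤ 1}`. -/
def K : Set (E 3) := {p | p 0 ^ 2 + p 1 ^ 2 ≤ 1 ∧ 0 ≤ p 2 ∧ p 2 ≤ 1}

/-- `F₁(x, y, t) = (1 - t, 0, x + 1)` and `F₂(x, y, t) = (-1, 1 - t, y)`. -/
noncomputable def F (l : Fin 2) (p : E 3) : E 3 :=
  if l = 0 then !₂[1 - p 2, 0, p 0 + 1] else !₂[-1, 1 - p 2, p 1]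

lemma inner_three (a b : E 3) : ⟪a, b⟫ = a 0 * b 0 + a 1 * b 1 + a 2 * b 2 := by
  simp [PiLp.inner_apply, Fin.sum_univ_three, mul_comm]

lemma inner_F0 (p q : E 3) : ⟪F 0 p, p - q⟫ =
    (1 - p 2) * (p 0 - q 0) + (p 0 + 1) * (p 2 - q 2) := by
  rw [inner_three]; simp [F]

lemma inner_F1 (p q : E 3) : ⟪F 1 p, p - q⟫ =
    -(p 0 - q 0) + (1 - p 2) * (p 1 - q 1) + p 1 * (p 2 - q 2) := by
  rw [inner_three]; simp [F]

/-- Every point of the cylinder with `2y + (1 - t) = 0` is dominated. -/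
lemma dominated (x y t : ℝ) (hxy : x ^ 2 + y ^ 2 ≤ 1) (ht0 : 0 ≤ t) (ht1 : t ≤ 1)
    (h : 2 * y + (1 - t) = 0) :
    ∃ x' y' t' : ℝ, x' ^ 2 + y' ^ 2 ≤ 1 ∧ 0 ≤ t' ∧ t' ≤ 1 ∧
      0 ≤ (1 - t) * (x - x') + (x + 1) * (t - t') ∧
      0 ≤ -(x - x') + (1 - t) * (y - y') + y * (t - t') ∧
      ((1 - t) * (x - x') + (x + 1) * (t - t') ≠ 0 ∨
        -(x - x') + (1 - t) * (y - y') + y * (t - t') ≠ 0) := by
  rcases eq_or_lt_of_le ht1 with rfl | ht
  · -- `t = 1`
    have hy : y = 0 := by linarith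
    subst hy
    have hx : x ≤ 1 := by nlinarith
    rcases eq_or_lt_of_le hx with rfl | hx
    · exact ⟨1, 0, 0, by norm_num, by norm_num, by norm_num, by norm_num, by norm_num,
        Or.inl (by norm_num)⟩
    · refine ⟨1, 0, 1, by norm_num, by norm_num, by norm_num, by norm_num, by linarith,
        Or.inr ?_⟩
      have : 0 < 1 - x := by linarith
      intro h0
      linarith
  · -- `t < 1`
    obtain ⟨s, hs⟩ : ∃ s, s = (1 - t) / 2 := ⟨_, rfl⟩
    have ht' : t = 1 - 2 * s := by linarith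
    have hy : y = -s := by linarith
    subst ht' hy
    have hs0 : 0 < s := by linarith
    have hs1 : s ≤ 1 / 2 := by linarith
    rcases eq_or_lt_of_le hxy with hb | hi
    · have hx34 : 3 / 4 ≤ x ^ 2 := by nlinarith
      rcases le_total 0 x with hx | hx
      · -- right half of the circle
        have hx' : 17 / 20 ≤ x := by nlinarith
        refine ⟨x - s / 10 * (2 * s), -s - 3 / 2 * (s / 10), 1 - 2 * s, ?_, by linarith,
          by linarith, ?_, ?_, Or.inl ?_⟩
        · nlinarith [mul_pos hs0 hs0, mul_nonneg (mul_pos hs0 hs0).le (sub_nonneg.2 hx')]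
        · have : 0 < s * s * s := by positivity
          nlinarith
        · have : 0 < s * s := by positivity
          nlinarith
        · have : 0 < s * s * s := by positivity
          intro h0
          nlinarith
      · -- left half of the circle
        obtain ⟨c, hc⟩ : ∃ c, c = -x := ⟨_, rfl⟩
        have hx' : x = -c := by linarith
        subst hx'
        have hc0 : 0 ≤ c := by linarith
        have hc1 : c ≤ 1 := by nlinarith
        have hcs : c ^ 2 + s ^ 2 = 1 := by nlinarith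
        refine ⟨-c - 4 * s * (2 * s / 25), -s + (1 + 4 * c) * (2 * s / 25),
          1 - 2 * s + 8 * (1 + c) * (2 * s / 25), ?_, ?_, ?_, ?_, ?_, Or.inr ?_⟩
        · have e : (-c - 4 * s * (2 * s / 25)) ^ 2 + (-s + (1 + 4 * c) * (2 * s / 25)) ^ 2 =
              (c ^ 2 + s ^ 2) + 16 * (c ^ 2 + s ^ 2) * (2 * s / 25) ^ 2 +
                (8 * c + 1) * (2 * s / 25) ^ 2 - 2 * s * (2 * s / 25) := by ring
          rw [e, hcs]
          have : 0 ≤ (1 - c) * (s * s) := mul_nonneg (by linarith) (by positivity)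
          nlinarith
        · have : 0 ≤ (1 + c) * s := by positivity
          nlinarith
        · have : 0 ≤ (1 - c) * s := mul_nonneg (by linarith) hs0.le
          nlinarith
        · have e : (1 - (1 - 2 * s)) * (-c - (-c - 4 * s * (2 * s / 25))) +
              (-c + 1) * (1 - 2 * s - (1 - 2 * s + 8 * (1 + c) * (2 * s / 25))) =
              (2 * s / 25) * 8 * (c ^ 2 + s ^ 2 - 1) := by ring
          rw [e, hcs]; norm_num
        · have e : -(-c - (-c - 4 * s * (2 * s / 25))) +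
              (1 - (1 - 2 * s)) * (-s - (-s + (1 + 4 * c) * (2 * s / 25))) +
              -s * (1 - 2 * s - (1 - 2 * s + 8 * (1 + c) * (2 * s / 25))) =
              2 * s * (2 * s / 25) := by ring
          rw [e]; positivity
        · have e : -(-c - (-c - 4 * s * (2 * s / 25))) +
              (1 - (1 - 2 * s)) * (-s - (-s + (1 + 4 * c) * (2 * s / 25))) +
              -s * (1 - 2 * s - (1 - 2 * s + 8 * (1 + c) * (2 * s / 25))) =
              2 * s * (2 * s / 25) := by ring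
          rw [e]; positivity
    · -- interior of the disk
      obtain ⟨e, he⟩ : ∃ e, e = (1 - (x ^ 2 + (-s) ^ 2)) / 5 := ⟨_, rfl⟩
      have he0 : 0 < e := by rw [he]; linarith
      have he1 : e ≤ 1 := by rw [he]; nlinarith [sq_nonneg x, sq_nonneg s]
      have hxa : -1 ≤ x := by nlinarith [sq_nonneg s]
      have hse : 0 < s * e := by positivity
      refine ⟨x - e * s, -s - e, 1 - 2 * s, ?_, by linarith, by linarith, ?_, ?_, Or.inr ?_⟩
      · have h1 : x ^ 2 + s ^ 2 = 1 - 5 * e := by rw [he]; ring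
        have h2 : (x - e * s) ^ 2 + (-s - e) ^ 2 =
            (x ^ 2 + s ^ 2) - 2 * (s * e) * x + 2 * (s * e) + e ^ 2 * s ^ 2 + e ^ 2 := by ring
        rw [h2, h1]
        have h3 : s * e ≤ e / 2 := by nlinarith
        have h4 : -(s * e) ≤ (s * e) * x := by nlinarith
        have h5 : e ^ 2 ≤ e := by nlinarith
        have h6 : e ^ 2 * s ^ 2 ≤ e := by nlinarith [mul_nonneg (sq_nonneg e) (sq_nonneg s)]
        linarith
      · nlinarith
      · nlinarith
      · intro h0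
        nlinarith

lemma mem_a : (!₂[-1, 0, 0] : E 3) ∈ paretoSol F K := by
  refine ⟨by simp [K], ?_⟩
  rintro q ⟨hq, -, -⟩ ⟨hpos, l, hl⟩
  have h0 := hpos 0
  rw [inner_F0] at h0
  simp at h0
  have hx : q 0 = -1 := by nlinarith [sq_nonneg (q 1)]
  have hy : q 1 = 0 := by
    rw [hx] at hq
    nlinarith [sq_nonneg (q 1)]
  apply hl
  fin_cases l
  · have := inner_F0 (!₂[-1, 0, 0] : E 3) q
    simp only [Fin.zero_eta]
    rw [this]; simp [hx]
  · have := inner_F1 (!₂[-1, 0, 0] : E 3) q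
    simp only [Fin.mk_one]
    rw [this]; simp [hx, hy]

lemma mem_b : (!₂[-(3 / 5), -(4 / 5), 1 / 5] : E 3) ∈ paretoSol F K := by
  refine ⟨?_, ?_⟩
  · simp [K]; norm_num
  rintro q ⟨hq, -, -⟩ ⟨hpos, l, hl⟩
  have h0 := hpos 0
  have h1 := hpos 1
  rw [inner_F0] at h0
  rw [inner_F1] at h1
  simp at h0 h1
  have h2 : -5 ≤ 3 * q 0 + 4 * q 1 := by
    nlinarith [sq_nonneg (4 * q 0 - 3 * q 1), sq_nonneg (3 * q 0 + 4 * q 1)]
  apply hl
  fin_cases l
  · have := inner_F0 (!₂[-(3 / 5), -(4 / 5), 1 / 5] : E 3) q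
    simp only [Fin.zero_eta]
    rw [this]; simp
    apply le_antisymm <;> linarith
  · have := inner_F1 (!₂[-(3 / 5), -(4 / 5), 1 / 5] : E 3) q
    simp only [Fin.mk_one]
    rw [this]; simp
    apply le_antisymm <;> linarith

/-- A monotone problem whose Pareto solution set is bounded and disconnected. -/
theorem result : ∃ (n m : ℕ) (K : Set (E n)) (F : Fin m → E n → E n),
    1 ≤ n ∧ 1 ≤ m ∧ K.Nonempty ∧ IsClosed K ∧ Convex ℝ K ∧ (∀ l, ContinuousOn (F l) K) ∧
    IsMonotone F K ∧ (paretoSol F K).Nonempty ∧ ¬ IsConnected (paretoSol F K) ∧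
    Bornology.IsBounded (paretoSol F K) := by
  have c0 : Continuous fun p : E 3 => p 0 := by fun_prop
  have c1 : Continuous fun p : E 3 => p 1 := by fun_prop
  have c2 : Continuous fun p : E 3 => p 2 := by fun_prop
  refine ⟨3, 2, K, F, by norm_num, by norm_num, ⟨!₂[0, 0, 0], by simp [K]⟩, ?_, ?_, ?_, ?_,
    ⟨_, mem_a⟩, ?_, ?_⟩
  · exact (isClosed_le ((c0.pow 2).add (c1.pow 2)) continuous_const).inter
      ((isClosed_le continuous_const c2).inter (isClosed_le c2 continuous_const))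
  · intro x hx y hy a b ha hb hab
    obtain ⟨hx0, hx1, hx2⟩ := hx
    obtain ⟨hy0, hy1, hy2⟩ := hy
    have hb' : b = 1 - a := by linarith
    subst hb'
    refine ⟨?_, ?_, ?_⟩ <;> simp only [PiLp.add_apply, PiLp.smul_apply, smul_eq_mul]
    · have e : (a * x 0 + (1 - a) * y 0) ^ 2 + (a * x 1 + (1 - a) * y 1) ^ 2 =
          a * (x 0 ^ 2 + x 1 ^ 2) + (1 - a) * (y 0 ^ 2 + y 1 ^ 2) -
            a * (1 - a) * ((x 0 - y 0) ^ 2 + (x 1 - y 1) ^ 2) := by ring
      rw [e]
      have h1 := mul_le_mul_of_nonneg_left hx0 ha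
      have h2 := mul_le_mul_of_nonneg_left hy0 hb
      have h3 : 0 ≤ a * (1 - a) * ((x 0 - y 0) ^ 2 + (x 1 - y 1) ^ 2) := by positivity
      linarith
    · positivity
    · nlinarith
  · intro l
    apply Continuous.continuousOn
    fin_cases l
    · show Continuous fun p : E 3 => F 0 p
      simp only [F, if_true]
      fun_prop
    · show Continuous fun p : E 3 => F 1 p
      simp only [F, one_ne_zero, if_false]
      fun_prop
  · intro l x _ y _
    apply le_of_eq
    rw [inner_three]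
    fin_cases l
    · simp [F]; ring
    · simp [F]; ring
  · intro hconn
    have hc : Continuous fun p : E 3 => 2 * p 1 + (1 - p 2) := by fun_prop
    have him := hconn.isPreconnected.image (fun p : E 3 => 2 * p 1 + (1 - p 2)) hc.continuousOn
    have m1 : (1 : ℝ) ∈ (fun p : E 3 => 2 * p 1 + (1 - p 2)) '' paretoSol F K :=
      ⟨_, mem_a, by simp⟩
    have m2 : (-(4 / 5) : ℝ) ∈ (fun p : E 3 => 2 * p 1 + (1 - p 2)) '' paretoSol F K :=
      ⟨_, mem_b, by simp; norm_num⟩
    obtain ⟨p, ⟨⟨hp1, hp2, hp3⟩, hp⟩, hp0⟩ := him.ordConnected.out m2 m1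
      (show (0 : ℝ) ∈ Set.Icc (-(4 / 5)) 1 by constructor <;> norm_num)
    obtain ⟨x', y', t', k1, k2, k3, k4, k5, k6⟩ := dominated (p 0) (p 1) (p 2) hp1 hp2 hp3 hp0
    refine hp !₂[x', y', t'] ⟨?_, ?_, ?_⟩ ⟨?_, ?_⟩
    · simpa using k1
    · simpa using k2
    · simpa using k3
    · intro l
      fin_cases l
      · show 0 ≤ ⟪F 0 p, p - !₂[x', y', t']⟫
        rw [inner_F0]; simpa using k4
      · show 0 ≤ ⟪F 1 p, p - !₂[x', y', t']⟫
        rw [inner_F1]; simpa using k5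
    · rcases k6 with k6 | k6
      · refine ⟨0, ?_⟩
        rw [inner_F0]; simpa using k6
      · refine ⟨1, ?_⟩
        rw [inner_F1]; simpa using k6
  · apply (Metric.isBounded_closedBall (x := (0 : E 3)) (r := 2)).subset
    rintro p ⟨⟨h1, h2, h3⟩, -⟩
    rw [mem_closedBall_zero_iff, EuclideanSpace.norm_eq]
    apply Real.sqrt_le_iff.2 ⟨by norm_num, ?_⟩
    simp only [Fin.sum_univ_three, Real.norm_eq_abs, sq_abs]
    nlinarith

end Pool.Agent.Results.MP_177738_an.BoundedDisconnected
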